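import Pool.Agent.Helper73.RF.GoalsD

/-!
# Project RF (MP_c98eff_gt), packet D5: the fibre
-/

set_option autoImplicit false

open Finset Pool.Agent.Helper47.RF Pool.Agent.Helper73.RF

namespace Pool.Agent.Helper75.RF

theorem nsq_ne {q : HH} (hq : q ≠ 0) : q.re ^ 2 + q.imI ^ 2 + q.imJ ^ 2 + q.imK ^ 2 ≠ 0 := by
  intro h
  apply hq
  have h0 : Quaternion.normSq q = 0 := by rw [Quaternion.normSq_def']; exact h
  exact Quaternion.normSq_eq_zero.1 h0

theorem row_unit (q : HH) (hq : q ≠ 0) (n : Fin 3 → ℝ) :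
    ∑ a, (∑ i, n i * rotf q i a) ^ 2 = ∑ i, n i ^ 2 := by
  have h := nsq_ne hq
  simp only [Fin.sum_univ_three, rotf_formula, Matrix.cons_val_zero, Matrix.cons_val_one,
    Matrix.cons_val]
  field_simp
  ring

theorem exists_q (m : Fin 3 → ℝ) (hm : ∑ a, m a ^ 2 = 1) :
    ∃ q : HH, q ≠ 0 ∧ ∀ a, rotf q 0 a = m a := by
  rw [Fin.sum_univ_three] at hm
  by_cases h0 : m 0 = -1
  · refine ⟨⟨0, 0, 1, 0⟩, ?_, ?_⟩
    · intro h
      have h1 : (1:ℝ) = (0 : HH).imJ := congrArg (fun q : HH => q.imJ) h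
      have h2 : (0 : HH).imJ = 0 := rfl
      rw [h2] at h1
      norm_num at h1
    · have h1 : m 1 ^ 2 + m 2 ^ 2 = 0 := by rw [h0] at hm; linarith
      have h2 : m 1 = 0 := by nlinarith [sq_nonneg (m 1), sq_nonneg (m 2)]
      have h3 : m 2 = 0 := by nlinarith [sq_nonneg (m 1), sq_nonneg (m 2)]
      intro a
      rw [rotf_formula]
      fin_cases a <;> simp [h0, h2, h3]
  · have hp : 1 + m 0 ≠ 0 := by
      intro h
      exact h0 (by linarith)
    refine ⟨⟨1 + m 0, 0, m 2, -m 1⟩, ?_, ?_⟩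
    · intro h
      have h1 : 1 + m 0 = (0 : HH).re := congrArg (fun q : HH => q.re) h
      exact hp h1
    · intro a
      rw [rotf_formula]
      have hN : (1 + m 0) ^ 2 + (0:ℝ) ^ 2 + m 2 ^ 2 + (-m 1) ^ 2 = 2 * (1 + m 0) := by
        nlinarith
      simp only
      rw [hN, div_eq_iff (by simpa using hp)]
      fin_cases a
      · simp
        nlinarith
      · simp
        ring
      · simp
        ring

/-- every quaternion is a combination -/
theorem decomp (w : HH) : w = w.re • (1 : HH) + (w.imI • qe 0 + w.imJ • qe 1 + w.imK • qe 2) := by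
  have h0 : (1 : HH).re = 1 := rfl
  have h1 : (1 : HH).imI = 0 := rfl
  have h2 : (1 : HH).imJ = 0 := rfl
  have h3 : (1 : HH).imK = 0 := rfl
  ext <;> simp [qe, h0, h1, h2, h3]

theorem fderiv_q_zero {T : ℝ} (f : BB T)
    (hf : ∀ k, derB T (vf 0 0 ((-(1 / 2) : ℝ) • qe k) 0) f = 0) {p : W} (hp : p ∈ Om T) (v : HH) :
    fderiv ℝ (exT f.1) p (0, v, 0) = 0 := by
  -- vertical directions
  have h1 : ∀ k, fderiv ℝ (exT f.1) p (0, qe k * p.2.1, 0) = 0 := by
    intro k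
    have h2 := congrArg (fun g : BB T => g.1 ⟨p, hp⟩) (hf k)
    have h3 : fderiv ℝ (exT f.1) p ((vf 0 0 ((-(1 / 2) : ℝ) • qe k) 0).X p) = 0 := h2
    have h4 : (vf 0 0 ((-(1 / 2) : ℝ) • qe k) 0).X p =
        (-(1 / 2) : ℝ) • ((0, qe k * p.2.1, 0) : W) := by
      simp [vf]
    rw [h4, map_smul, smul_eq_mul] at h3
    have h5 : (-(1 / 2) : ℝ) ≠ 0 := by norm_num
    exact (mul_eq_zero.mp h3).resolve_left h5
  -- Euler
  have h2 : fderiv ℝ (exT f.1) p (0, p.2.1, 0) = 0 := by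
    have c1 : HasDerivAt (fun s : ℝ => (p.1, (1 + s) • p.2.1, p.2.2)) ((0, p.2.1, 0) : W) 0 := by
      have a1 : HasDerivAt (fun s : ℝ => (1 + s)) 1 0 := by
        simpa using (hasDerivAt_id (0:ℝ)).const_add 1
      have a2 : HasDerivAt (fun s : ℝ => (1 + s) • p.2.1) p.2.1 0 := by
        simpa using a1.smul_const p.2.1
      exact (hasDerivAt_const (0:ℝ) p.1).prodMk (a2.prodMk (hasDerivAt_const (0:ℝ) p.2.2))
    have c2 : HasFDerivAt (exT f.1) (fderiv ℝ (exT f.1) p)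
        ((fun s : ℝ => ((p.1, (1 + s) • p.2.1, p.2.2) : W)) 0) := by
      have : (fun s : ℝ => ((p.1, (1 + s) • p.2.1, p.2.2) : W)) 0 = p := by simp
      rw [this]
      exact exT_hasFDerivAt f.2 hp
    have c3 : HasDerivAt (fun s : ℝ => exT f.1 ((p.1, (1 + s) • p.2.1, p.2.2) : W))
        (fderiv ℝ (exT f.1) p (0, p.2.1, 0)) 0 :=
      HasFDerivAt.comp_hasDerivAt (l := exT f.1)
        (f := fun s : ℝ => ((p.1, (1 + s) • p.2.1, p.2.2) : W)) 0 c2 c1
    have c4 : (fun s : ℝ => exT f.1 ((p.1, (1 + s) • p.2.1, p.2.2) : W)) =ᶠ[nhds 0]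
        fun _ => exT f.1 p := by
      have : ∀ᶠ s : ℝ in nhds 0, 0 < 1 + s := by
        have := (isOpen_lt (continuous_const (y := (0:ℝ))) (continuous_const.add continuous_id)
          : IsOpen {t : ℝ | 0 < 1 + t}).mem_nhds (x := (0:ℝ)) (by simp)
        exact this
      filter_upwards [this] with s hs
      have h := (f.2 : IsB f.1).hom 1 (1 + s) one_pos hs p hp
      rw [scW_apply, one_smul] at h
      exact h
    have c5 : HasDerivAt (fun s : ℝ => exT f.1 ((p.1, (1 + s) • p.2.1, p.2.2) : W)) 0 0 :=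
      (hasDerivAt_const (0:ℝ) (exT f.1 p)).congr_of_eventuallyEq c4
    exact c3.unique c5
  -- general direction
  have hq : p.2.1 ≠ 0 := hp.2.1
  set w : HH := v * p.2.1⁻¹ with hw
  have hv : v = w * p.2.1 := by rw [hw, mul_assoc, inv_mul_cancel₀ hq, mul_one]
  have e : ((0, v, 0) : W) = w.re • (0, p.2.1, 0) + (w.imI • (0, qe 0 * p.2.1, 0)
      + w.imJ • (0, qe 1 * p.2.1, 0) + w.imK • (0, qe 2 * p.2.1, 0)) := by
    have : v = w.re • p.2.1 + (w.imI • (qe 0 * p.2.1) + w.imJ • (qe 1 * p.2.1)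
        + w.imK • (qe 2 * p.2.1)) := by
      conv_lhs => rw [hv, decomp w]
      simp only [add_mul, smul_mul_assoc, one_mul]
    simp only [Prod.smul_mk, Prod.mk_add_mk, smul_zero, add_zero]
    rw [← this]
  rw [e]
  simp only [map_add, map_smul, h1, h2, smul_zero, add_zero]

theorem const_q {T : ℝ} (f : BB T)
    (hf : ∀ k, derB T (vf 0 0 ((-(1 / 2) : ℝ) • qe k) 0) f = 0) {x : HH} (hx : x ≠ 0) {t : ℝ}
    (ht : 0 < t) (htT : t < T) {q q' : HH} (hq : q ≠ 0) (hq' : q' ≠ 0) :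
    exT f.1 (x, q, t) = exT f.1 (x, q', t) := by
  have hmem : ∀ r : HH, r ∈ ({0}ᶜ : Set HH) → ((x, r, t) : W) ∈ Om T :=
    fun r hr => ⟨hx, hr, ht, htT⟩
  have hd : ∀ r : HH, r ∈ ({0}ᶜ : Set HH) →
      HasFDerivAt (fun r : HH => exT f.1 ((x, r, t) : W)) (0 : HH →L[ℝ] ℝ) r := by
    intro r hr
    have h1 : HasFDerivAt (fun r : HH => ((x, r, t) : W))
        ((0 : HH →L[ℝ] HH).prod ((ContinuousLinearMap.id ℝ HH).prod (0 : HH →L[ℝ] ℝ))) r :=
      (hasFDerivAt_const x r).prodMk ((hasFDerivAt_id r).prodMk (hasFDerivAt_const t r))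
    have h2 := (exT_hasFDerivAt f.2 (hmem r hr)).comp r h1
    have h3 : (fderiv ℝ (exT f.1) ((x, r, t) : W)).comp
        ((0 : HH →L[ℝ] HH).prod ((ContinuousLinearMap.id ℝ HH).prod (0 : HH →L[ℝ] ℝ))) = 0 := by
      ext v
      exact fderiv_q_zero f hf (hmem r hr) v
    rw [h3] at h2
    exact h2
  have hrank : 1 < Module.rank ℝ HH := by
    rw [Quaternion.rank_eq_four]
    norm_num
  have hc : IsPreconnected ({0}ᶜ : Set HH) :=
    (isConnected_compl_singleton_of_one_lt_rank hrank 0).isPreconnected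
  exact isOpen_compl_singleton.is_const_of_fderiv_eq_zero (𝕜 := ℝ)
    (f := fun r : HH => exT f.1 ((x, r, t) : W)) hc
    (fun r hr => (hd r hr).differentiableAt.differentiableWithinAt)
    (fun r hr => (hd r hr).fderiv) hq hq'

/-- PACKET D5. -/
theorem d5 : D5Stmt := by
  intro T z n hn
  obtain ⟨x, q⟩ : ZZ := z
  have hq : (q : HH) ≠ 0 := sph_ne q
  obtain ⟨u, hu, hum⟩ := exists_q (fun a => ∑ i, n i * rotf (q : HH) i a)
    (by rw [row_unit _ hq, hn])
  have hun : ‖u‖ ≠ 0 := norm_ne_zero_iff.mpr hu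
  have hs : ‖‖u‖⁻¹ • u‖ = 1 := by
    rw [norm_smul, norm_inv, norm_norm, inv_mul_cancel₀ hun]
  refine ⟨((x, ⟨‖u‖⁻¹ • u, by simpa using hs⟩) : ZZ), ?_⟩
  intro t
  refine ⟨?_, ?_⟩
  · intro f hf
    have h := const_q f hf (sph_ne x) t.2.1 t.2.2 (q := ‖u‖⁻¹ • u) (q' := (q : HH))
      (smul_ne_zero (inv_ne_zero hun) hu) hq
    rw [exT_of_mem _ ⟨sph_ne x, smul_ne_zero (inv_ne_zero hun) hu, t.2.1, t.2.2⟩,
      exT_of_mem _ ⟨sph_ne x, hq, t.2.1, t.2.2⟩] at h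
    exact h
  · intro a
    change rotf (‖u‖⁻¹ • u) 0 a = ∑ i, n i * rotf (q : HH) i a
    rw [← hum a]
    exact (sm_rotf 0 a).hom _ _ (inv_pos.mpr (norm_pos_iff.mpr hu))

end Pool.Agent.Helper75.RF
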