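import Pool.Agent.Helper64.RF.GoalsD

/-!
Project RF (MP_c98eff_gt), packet D5-CONT: the energy infimum is continuous in the end point.
-/

open scoped Quaternion

namespace Pool.Agent.Helper75.RF

open Pool.Agent.Helper64.RF

theorem norm_im_le (q : ℍ[ℝ]) : ‖im q‖ ≤ ‖q‖ := by
  have h1 := norm_sq_le_sq (im q)
  have h2 := norm_sq_eq q
  have h3 : ‖im q‖ ^ 2 ≤ ‖q‖ ^ 2 := by nlinarith [sq_nonneg q.re]
  exact le_of_sq_le_sq h3 (norm_nonneg _)
where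
  le_of_sq_le_sq {a b : ℝ} (h : a ^ 2 ≤ b ^ 2) (hb : 0 ≤ b) : a ≤ b :=
    abs_le_of_sq_le_sq' h hb |>.2

theorem norm_iot_le (v : W) : ‖iot v‖ ≤ 2 * ‖v‖ := by
  have h1 := norm_iot_sq v
  have h2 := sq_le_norm_sq v
  have h3 : ‖iot v‖ ^ 2 ≤ (2 * ‖v‖) ^ 2 := by nlinarith [sq_nonneg ‖v‖]
  exact abs_le_of_sq_le_sq' h3 (by positivity) |>.2

/-- Lipschitz estimate for 0-homogeneous smooth functions. -/
theorem ss_lip {F : Type*} [NormedAddCommGroup F] [NormedSpace ℝ F] {f : ℍ[ℝ] → F} (h : SS f) :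
    ∃ C : ℝ, 0 ≤ C ∧ ∀ x : ℍ[ℝ], x ≠ 0 → ∀ b : ℍ[ℝ], ‖b - 1‖ ≤ 1 / 2 →
      ‖f (x * b) - f x‖ ≤ C * ‖b - 1‖ := by
  have hKc : IsCompact (Metric.closedBall (0 : ℍ[ℝ]) (3 / 2) ∩ {z | 1 / 2 ≤ ‖z‖}) :=
    (isCompact_closedBall _ _).inter_right (isClosed_le continuous_const continuous_norm)
  have hne : ∀ z ∈ Metric.closedBall (0 : ℍ[ℝ]) (3 / 2) ∩ {z | 1 / 2 ≤ ‖z‖}, z ≠ 0 := by
    rintro z ⟨_, hz⟩ rfl
    have : (1:ℝ) / 2 ≤ ‖(0 : ℍ[ℝ])‖ := hz
    rw [norm_zero] at this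
    norm_num at this
  have hcont : ContinuousOn (fderiv ℝ f)
      (Metric.closedBall (0 : ℍ[ℝ]) (3 / 2) ∩ {z | 1 / 2 ≤ ‖z‖}) := by
    intro z hz
    have h1 : ContDiffAt ℝ (⊤ : ℕ∞) (fderiv ℝ f) z := (h.2 z (hne z hz)).fderiv_right (by simp)
    exact h1.continuousAt.continuousWithinAt
  obtain ⟨C, hC⟩ := hKc.exists_bound_of_continuousOn (E := ℍ[ℝ] →L[ℝ] F) hcont
  refine ⟨max C 0, le_max_right _ _, ?_⟩
  have key : ∀ x : ℍ[ℝ], ‖x‖ = 1 → ∀ b : ℍ[ℝ], ‖b - 1‖ ≤ 1 / 2 →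
      ‖f (x * b) - f x‖ ≤ max C 0 * ‖b - 1‖ := by
    intro x hx b hb
    have hsub : ∀ z ∈ Metric.closedBall x (1 / 2),
        z ∈ Metric.closedBall (0 : ℍ[ℝ]) (3 / 2) ∩ {z | 1 / 2 ≤ ‖z‖} := by
      intro z hz
      rw [mem_closedBall_iff_norm] at hz
      constructor
      · rw [mem_closedBall_zero_iff]
        have := norm_add_le (z - x) x
        rw [sub_add_cancel] at this
        linarith
      · change (1:ℝ) / 2 ≤ ‖z‖
        have := norm_sub_norm_le x z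
        rw [norm_sub_rev] at this
        linarith
    have hmem : x * b ∈ Metric.closedBall x (1 / 2) := by
      rw [mem_closedBall_iff_norm]
      have : x * b - x = x * (b - 1) := by rw [mul_sub, mul_one]
      rw [this, norm_mul, hx, one_mul]
      exact hb
    have h2 := (convex_closedBall x (1 / 2)).norm_image_sub_le_of_norm_fderiv_le (𝕜 := ℝ)
      (f := f) (C := max C 0)
      (fun z hz => h.differentiableAt (hne z (hsub z hz)))
      (fun z hz => (hC z (hsub z hz)).trans (le_max_left _ _))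
      (Metric.mem_closedBall_self (by norm_num)) hmem
    have h3 : x * b - x = x * (b - 1) := by rw [mul_sub, mul_one]
    rw [h3, norm_mul, hx, one_mul] at h2
    exact h2
  intro x hx b hb
  have hn : 0 < ‖x‖⁻¹ := inv_pos.mpr (norm_pos_iff.mpr hx)
  have h1 := key (‖x‖⁻¹ • x)
    (by simp [norm_smul, inv_mul_cancel₀ (norm_ne_zero_iff.mpr hx)]) b hb
  rw [smul_mul_assoc, h.1 _ hn, h.1 _ hn] at h1
  exact h1

/-- Pointwise comparison of the energy densities. -/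
theorem dens {g : ℍ[ℝ] → W →L[ℝ] W →L[ℝ] ℝ} (hg : Met g) :
    ∃ C : ℝ, 0 ≤ C ∧ ∀ (x : ℍ[ℝ]) (b b' : ℍ[ℝ]) (v : W) (δ : ℝ), x ≠ 0 → 0 ≤ δ → δ ≤ 1 / 2 →
      ‖b - 1‖ ≤ δ → ‖b'‖ ≤ 2 * δ →
      g (x * b) (im (b⁻¹ * iot v * b + b⁻¹ * b')) (im (b⁻¹ * iot v * b + b⁻¹ * b')) ≤
        (1 + C * δ) * g x v v + C * δ := by
  obtain ⟨B, hB0, hB⟩ := hg.smooth.bdd
  obtain ⟨L, hL0, hL⟩ := ss_lip hg.smooth
  obtain ⟨c, hc0, C', hC'0, hcC⟩ := hg.bounds
  have hK0 : 0 ≤ 96 * B + 50 * L := by positivity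
  refine ⟨(96 * B + 50 * L) / c + (96 * B + 50 * L), by positivity, ?_⟩
  intro x b b' v δ hx hδ0 hδ hb hb'
  have hbh : ‖b - 1‖ ≤ 1 / 2 := hb.trans hδ
  have hbn : 1 / 2 ≤ ‖b‖ := by
    have := norm_sub_norm_le (1 : ℍ[ℝ]) b
    rw [norm_sub_rev, norm_one] at this
    linarith
  have hb0 : b ≠ 0 := by
    intro h
    rw [h, norm_zero] at hbn
    norm_num at hbn
  have hbi : ‖b⁻¹‖ ≤ 2 := by
    rw [norm_inv]
    calc ‖b‖⁻¹ ≤ (1 / 2 : ℝ)⁻¹ := inv_anti₀ (by norm_num) hbn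
      _ = 2 := by norm_num
  set u := im (b⁻¹ * iot v * b + b⁻¹ * b') with hu
  have hdiff : ‖u - v‖ ≤ 8 * δ * (‖v‖ + 1) := by
    have e1 : u - v = im (b⁻¹ * (iot v * (b - 1) - (b - 1) * iot v) + b⁻¹ * b') := by
      have : b⁻¹ * (iot v * (b - 1) - (b - 1) * iot v) + b⁻¹ * b'
          = (b⁻¹ * iot v * b + b⁻¹ * b') - iot v := by
        have e2 : iot v * (b - 1) - (b - 1) * iot v = iot v * b - b * iot v := by
          noncomm_ring
        rw [e2, mul_sub, ← mul_assoc, ← mul_assoc, inv_mul_cancel₀ hb0, one_mul]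
        abel
      rw [this, im_sub, im_iot, hu]
    rw [e1]
    refine (norm_im_le _).trans ?_
    have n1 : ‖b⁻¹ * (iot v * (b - 1) - (b - 1) * iot v)‖ ≤ 2 * (2 * ‖v‖ * δ + δ * (2 * ‖v‖)) := by
      rw [norm_mul]
      refine mul_le_mul hbi ?_ (norm_nonneg _) (by norm_num)
      refine (norm_sub_le _ _).trans ?_
      rw [norm_mul, norm_mul]
      have := norm_iot_le v
      gcongr
    have n2 : ‖b⁻¹ * b'‖ ≤ 2 * (2 * δ) := by
      rw [norm_mul]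
      exact mul_le_mul hbi hb' (norm_nonneg _) (by norm_num)
    have := norm_add_le (b⁻¹ * (iot v * (b - 1) - (b - 1) * iot v)) (b⁻¹ * b')
    nlinarith [norm_nonneg v]
  have hun : ‖u‖ ≤ 5 * ‖v‖ + 4 := by
    have h1 := norm_add_le (u - v) v
    rw [sub_add_cancel] at h1
    have h2 : 8 * δ * (‖v‖ + 1) ≤ 4 * (‖v‖ + 1) := by
      have := norm_nonneg v
      nlinarith
    linarith
  have hv0 := norm_nonneg v
  have hu0 := norm_nonneg u
  have hw0 := norm_nonneg (u - v)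
  -- first error
  have t1 : g (x * b) u u ≤ g x u u + L * δ * ‖u‖ ^ 2 := by
    have h1 : g (x * b) u u - g x u u = (g (x * b) - g x) u u := by simp
    have h2 : (g (x * b) - g x) u u ≤ ‖g (x * b) - g x‖ * ‖u‖ * ‖u‖ :=
      (le_abs_self _).trans ((g (x * b) - g x).le_opNorm₂ u u)
    have h3 : ‖g (x * b) - g x‖ ≤ L * δ := (hL x hx b hbh).trans (by gcongr)
    have h4 : ‖g (x * b) - g x‖ * ‖u‖ * ‖u‖ ≤ L * δ * ‖u‖ * ‖u‖ := by gcongr
    nlinarith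
  have gb : ∀ a a' : W, g x a a' ≤ B * ‖a‖ * ‖a'‖ := by
    intro a a'
    have h1 : g x a a' ≤ ‖g x‖ * ‖a‖ * ‖a'‖ := (le_abs_self _).trans ((g x).le_opNorm₂ a a')
    have := hB x hx
    refine h1.trans ?_
    gcongr
  have t2 : g x u u ≤ g x v v + B * (2 * (‖u - v‖ * ‖v‖) + ‖u - v‖ ^ 2) := by
    have e : g x u u = g x v v + g x (u - v) v + g x v (u - v) + g x (u - v) (u - v) := by
      simp only [map_sub, _root_.sub_apply]
      ring
    rw [e]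
    have a1 := gb (u - v) v
    have a2 := gb v (u - v)
    have a3 := gb (u - v) (u - v)
    nlinarith
  have s1 : ‖u - v‖ * ‖v‖ ≤ 16 * δ * (‖v‖ ^ 2 + 1) := by
    have h1 : ‖u - v‖ * ‖v‖ ≤ 8 * δ * (‖v‖ + 1) * ‖v‖ := by gcongr
    have h2 : (‖v‖ + 1) * ‖v‖ ≤ 2 * (‖v‖ ^ 2 + 1) := by nlinarith [sq_nonneg (‖v‖ - 1)]
    have h3 : 8 * δ * ((‖v‖ + 1) * ‖v‖) ≤ 8 * δ * (2 * (‖v‖ ^ 2 + 1)) := by gcongr
    nlinarith
  have s2 : ‖u - v‖ ^ 2 ≤ 64 * δ * (‖v‖ ^ 2 + 1) := by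
    have h1 : ‖u - v‖ ^ 2 ≤ (8 * δ * (‖v‖ + 1)) ^ 2 := by gcongr
    have h2 : (‖v‖ + 1) ^ 2 ≤ 2 * (‖v‖ ^ 2 + 1) := by nlinarith [sq_nonneg (‖v‖ - 1)]
    have h3 : 64 * δ ^ 2 * (‖v‖ + 1) ^ 2 ≤ 64 * δ ^ 2 * (2 * (‖v‖ ^ 2 + 1)) := by gcongr
    have h4 : δ ^ 2 * 2 ≤ δ := by nlinarith
    have h5 : 64 * (δ ^ 2 * 2) * (‖v‖ ^ 2 + 1) ≤ 64 * δ * (‖v‖ ^ 2 + 1) := by gcongr
    nlinarith
  have s3 : ‖u‖ ^ 2 ≤ 50 * (‖v‖ ^ 2 + 1) := by
    have h1 : ‖u‖ ^ 2 ≤ (5 * ‖v‖ + 4) ^ 2 := by gcongr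
    nlinarith [sq_nonneg (‖v‖ - 1)]
  have tot : g (x * b) u u ≤ g x v v + (96 * B + 50 * L) * δ * (‖v‖ ^ 2 + 1) := by
    have h1 : L * δ * ‖u‖ ^ 2 ≤ L * δ * (50 * (‖v‖ ^ 2 + 1)) := by gcongr
    have h2 : B * (2 * (‖u - v‖ * ‖v‖) + ‖u - v‖ ^ 2) ≤
        B * (2 * (16 * δ * (‖v‖ ^ 2 + 1)) + 64 * δ * (‖v‖ ^ 2 + 1)) := by gcongr
    nlinarith
  have hvv : ‖v‖ ^ 2 ≤ g x v v / c := by
    rw [le_div_iff₀ hc0]
    have h1 := (hcC x hx v).1
    have h2 := norm_sq_le_sq v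
    nlinarith
  have hgn : 0 ≤ g x v v := by
    have h1 := (hcC x hx v).1
    have h2 := sq_nonneg' v
    have : 0 ≤ c * Helper64.RF.sq v := by positivity
    linarith
  have fin1 : (96 * B + 50 * L) * δ * (‖v‖ ^ 2 + 1) ≤
      (96 * B + 50 * L) * δ * (g x v v / c + 1) := by gcongr
  have fin2 : (96 * B + 50 * L) * δ * (g x v v / c + 1) =
      (96 * B + 50 * L) / c * δ * g x v v + (96 * B + 50 * L) * δ := by
    field_simp
  have fin3 : 0 ≤ (96 * B + 50 * L) * δ * g x v v := by positivity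
  have fin4 : 0 ≤ (96 * B + 50 * L) / c * δ := by positivity
  calc g (x * b) u u ≤ g x v v + ((96 * B + 50 * L) / c * δ * g x v v
        + (96 * B + 50 * L) * δ) := by rw [← fin2]; linarith
    _ ≤ _ := by nlinarith

/-- The velocity and the metric along a curve are continuous. -/
theorem C1.vel_continuous {c : ℝ → ℍ[ℝ]} (hc : C1 c) : Continuous (vel c) := by
  have h1 : Continuous (deriv c) := hc.1.continuous_deriv le_rfl
  have h2 : Continuous fun t => (c t)⁻¹ := hc.1.continuous.inv₀ hc.2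
  have h3 : Continuous fun t => imL ((c t)⁻¹ * deriv c t) := imL.continuous.comp (h2.mul h1)
  exact h3

theorem C1.dens_continuous {g : ℍ[ℝ] → W →L[ℝ] W →L[ℝ] ℝ} (hg : Met g) {c : ℝ → ℍ[ℝ]}
    (hc : C1 c) : Continuous fun t => g (c t) (vel c t) (vel c t) := by
  have h1 : Continuous fun t => g (c t) := by
    rw [continuous_iff_continuousAt]
    intro t
    exact (hg.smooth.continuousAt (hc.2 t)).comp hc.1.continuous.continuousAt
  exact (h1.clm_apply (C1.vel_continuous hc)).clm_apply (C1.vel_continuous hc)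

theorem En_nonneg {g : ℍ[ℝ] → W →L[ℝ] W →L[ℝ] ℝ} (hg : Met g) {c : ℝ → ℍ[ℝ]} (hc : C1 c) :
    0 ≤ En g c := by
  obtain ⟨c0, hc0, C', hC'0, hcC⟩ := hg.bounds
  apply intervalIntegral.integral_nonneg (by norm_num)
  intro t _
  have h1 := (hcC (c t) (hc.2 t) (vel c t)).1
  have h2 := sq_nonneg' (vel c t)
  have : 0 ≤ c0 * Helper64.RF.sq (vel c t) := by positivity
  linarith

/-- The velocity of a product curve. -/
theorem vel_mul {c b : ℝ → ℍ[ℝ]} {b' : ℍ[ℝ]} {t : ℝ} (hc : DifferentiableAt ℝ c t)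
    (hb : HasDerivAt b b' t) (hc0 : c t ≠ 0) (hb0 : b t ≠ 0) :
    vel (fun s => c s * b s) t =
      im ((b t)⁻¹ * iot (vel c t) * b t + (b t)⁻¹ * b') := by
  have h1 : HasDerivAt (fun s => c s * b s) (deriv c t * b t + c t * b') t :=
    hc.hasDerivAt.mul hb
  unfold vel
  rw [h1.deriv, im_add, ← im_conj _ _ hb0, ← im_add]
  congr 1
  rw [mul_inv_rev, mul_add]
  congr 1
  · noncomm_ring
  · rw [mul_assoc, ← mul_assoc (c t)⁻¹, inv_mul_cancel₀ hc0, one_mul]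

/-- Step 1: moving the end point. -/
theorem step1 {g : ℍ[ℝ] → W →L[ℝ] W →L[ℝ] ℝ} (hg : Met g) :
    ∃ C : ℝ, 0 ≤ C ∧ ∀ (c : ℝ → ℍ[ℝ]) (q : ℍ[ℝ]), C1 c → ‖q - 1‖ ≤ 1 / 2 →
      ∃ c' : ℝ → ℍ[ℝ], C1 c' ∧ c' 0 = c 0 ∧ c' 1 = c 1 * q ∧
        En g c' ≤ (1 + C * ‖q - 1‖) * En g c + C * ‖q - 1‖ := by
  obtain ⟨C, hC0, hC⟩ := dens hg
  refine ⟨C, hC0, fun c q hc hq => ?_⟩
  set m : ℝ → ℝ := fun t => Real.sin (Real.pi / 2 * t) ^ 2 with hm
  set b : ℝ → ℍ[ℝ] := fun t => 1 + m t • (q - 1) with hb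
  have hm0 : ∀ t, 0 ≤ m t := fun t => by positivity
  have hm1 : ∀ t, m t ≤ 1 := fun t => Real.sin_sq_le_one _
  have hmd : ∀ t, HasDerivAt m
      (2 * Real.sin (Real.pi / 2 * t) * (Real.cos (Real.pi / 2 * t) * (Real.pi / 2))) t := by
    intro t
    have h1 : HasDerivAt (fun t : ℝ => Real.pi / 2 * t) (Real.pi / 2) t := by
      simpa using (hasDerivAt_id t).const_mul (Real.pi / 2)
    have h2 := (h1.sin).fun_pow 2
    simpa using h2
  have hmd2 : ∀ t, |2 * Real.sin (Real.pi / 2 * t) *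
      (Real.cos (Real.pi / 2 * t) * (Real.pi / 2))| ≤ 2 := by
    intro t
    have e : 2 * Real.sin (Real.pi / 2 * t) * (Real.cos (Real.pi / 2 * t) * (Real.pi / 2))
        = Real.pi / 2 * Real.sin (2 * (Real.pi / 2 * t)) := by
      rw [Real.sin_two_mul]; ring
    rw [e, abs_mul, abs_of_pos (by positivity)]
    have h1 := Real.abs_sin_le_one (2 * (Real.pi / 2 * t))
    have h2 := Real.pi_le_four
    calc Real.pi / 2 * |Real.sin (2 * (Real.pi / 2 * t))| ≤ Real.pi / 2 * 1 := by gcongr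
      _ ≤ 2 := by linarith
  have hbd : ∀ t, HasDerivAt b
      ((2 * Real.sin (Real.pi / 2 * t) * (Real.cos (Real.pi / 2 * t) * (Real.pi / 2)))
        • (q - 1)) t := fun t => ((hmd t).smul_const (q - 1)).const_add 1
  have hb1 : ∀ t, ‖b t - 1‖ ≤ ‖q - 1‖ := by
    intro t
    have : b t - 1 = m t • (q - 1) := by simp [hb]
    rw [this, norm_smul, Real.norm_eq_abs, abs_of_nonneg (hm0 t)]
    calc m t * ‖q - 1‖ ≤ 1 * ‖q - 1‖ := by gcongr; exact hm1 t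
      _ = ‖q - 1‖ := one_mul _
  have hbne : ∀ t, b t ≠ 0 := by
    intro t h
    have h1 := hb1 t
    rw [h, zero_sub, norm_neg, norm_one] at h1
    linarith
  have hbs : ContDiff ℝ 1 b := by
    have : ContDiff ℝ 1 m := by
      apply ContDiff.pow
      exact Real.contDiff_sin.comp (contDiff_const.mul contDiff_id)
    exact contDiff_const.add (this.smul contDiff_const)
  have hc' : C1 (fun t => c t * b t) :=
    ⟨hc.1.mul hbs, fun t => mul_ne_zero (hc.2 t) (hbne t)⟩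
  refine ⟨fun t => c t * b t, hc', ?_, ?_, ?_⟩
  · simp [hb, hm]
  · simp [hb, hm]
  · have hpt : ∀ t, g (c t * b t) (vel (fun t => c t * b t) t) (vel (fun t => c t * b t) t) ≤
        (1 + C * ‖q - 1‖) * g (c t) (vel c t) (vel c t) + C * ‖q - 1‖ := by
      intro t
      rw [vel_mul ((hc.1.differentiable one_ne_zero) t) (hbd t) (hc.2 t) (hbne t)]
      apply hC (c t) (b t) _ (vel c t) ‖q - 1‖ (hc.2 t) (norm_nonneg _) hq (hb1 t)
      rw [norm_smul, Real.norm_eq_abs]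
      have := hmd2 t
      gcongr
    have hcont := C1.dens_continuous hg hc
    have hcont' := C1.dens_continuous hg hc'
    unfold En
    calc ∫ t in (0:ℝ)..1, g (c t * b t) (vel (fun t => c t * b t) t)
          (vel (fun t => c t * b t) t)
        ≤ ∫ t in (0:ℝ)..1, ((1 + C * ‖q - 1‖) * g (c t) (vel c t) (vel c t) + C * ‖q - 1‖) := by
          apply intervalIntegral.integral_mono_on (by norm_num)
            (hcont'.intervalIntegrable _ _)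
            (((continuous_const.mul hcont).add continuous_const).intervalIntegrable _ _)
          intro t _
          exact hpt t
      _ = (1 + C * ‖q - 1‖) * (∫ t in (0:ℝ)..1, g (c t) (vel c t) (vel c t))
          + C * ‖q - 1‖ := by
          have i1 : IntervalIntegrable (fun t => (1 + C * ‖q - 1‖) *
              g (c t) (vel c t) (vel c t)) MeasureTheory.volume 0 1 :=
            (continuous_const.mul hcont).intervalIntegrable _ _
          have i2 : IntervalIntegrable (fun _ : ℝ => C * ‖q - 1‖) MeasureTheory.volume 0 1 :=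
            continuous_const.intervalIntegrable _ _
          rw [intervalIntegral.integral_add i1 i2,
            intervalIntegral.integral_const_mul, intervalIntegral.integral_const]
          simp

/-- Step 2: comparison of the infima. -/
theorem step2 (crv : CRV) {g : ℍ[ℝ] → W →L[ℝ] W →L[ℝ] ℝ} (hg : Met g) :
    ∃ C : ℝ, 0 ≤ C ∧ ∀ (p y q : ℍ[ℝ]), p ≠ 0 → y ≠ 0 → ‖q - 1‖ ≤ 1 / 2 →
      eInf g p (y * q) ≤ (1 + C * ‖q - 1‖) * eInf g p y + C * ‖q - 1‖ := by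
  obtain ⟨C, hC0, hC⟩ := step1 hg
  refine ⟨C, hC0, fun p y q hp hy hq => ?_⟩
  have hn := norm_nonneg (q - 1)
  have hpos : 0 < 1 + C * ‖q - 1‖ := by positivity
  have hne : {e : ℝ | ∃ c, C1 c ∧ c 0 = p ∧ c 1 = y ∧ En g c = e}.Nonempty := by
    obtain ⟨c, hc, h0, h1⟩ := crv.1 p y hp hy
    exact ⟨_, c, hc, h0, h1, rfl⟩
  have hbdd : BddBelow {e : ℝ | ∃ c, C1 c ∧ c 0 = p ∧ c 1 = y * q ∧ En g c = e} := by
    refine ⟨0, ?_⟩
    rintro e ⟨c, hc, _, _, rfl⟩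
    exact En_nonneg hg hc
  have h : (eInf g p (y * q) - C * ‖q - 1‖) / (1 + C * ‖q - 1‖) ≤ eInf g p y := by
    apply le_csInf hne
    rintro e ⟨c, hc, h0, h1, rfl⟩
    obtain ⟨c', hc', h0', h1', hE⟩ := hC c q hc hq
    rw [div_le_iff₀ hpos]
    have h2 : eInf g p (y * q) ≤ En g c' :=
      csInf_le hbdd ⟨c', hc', by rw [h0', h0], by rw [h1', h1], rfl⟩
    linarith
  rw [div_le_iff₀ hpos] at h
  linarith

/-- **D5-CONT.** -/
theorem cont (crv : CRV) : CONT := by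
  intro g hg p hp y0 hy0
  have hy0' : y0 ≠ 0 := by simpa using hy0
  obtain ⟨C, hC0, hC⟩ := step2 crv hg
  apply ContinuousAt.continuousWithinAt
  have hne : ∀ᶠ y in nhds y0, y ≠ 0 := isOpen_ne.mem_nhds hy0'
  -- the two small parameters
  have hd1 : Filter.Tendsto (fun y : ℍ[ℝ] => ‖y0⁻¹ * y - 1‖) (nhds y0) (nhds 0) := by
    have : Continuous fun y : ℍ[ℝ] => ‖y0⁻¹ * y - 1‖ := by fun_prop
    have h := this.tendsto y0
    simpa [inv_mul_cancel₀ hy0'] using h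
  have hd2 : Filter.Tendsto (fun y : ℍ[ℝ] => ‖y⁻¹ * y0 - 1‖) (nhds y0) (nhds 0) := by
    have h1 : ContinuousAt (fun y : ℍ[ℝ] => y⁻¹) y0 := continuousAt_inv₀ hy0'
    have h2 : ContinuousAt (fun y : ℍ[ℝ] => ‖y⁻¹ * y0 - 1‖) y0 :=
      ((h1.mul continuousAt_const).sub continuousAt_const).norm
    have h : Filter.Tendsto (fun y : ℍ[ℝ] => ‖y⁻¹ * y0 - 1‖) (nhds y0)
      (nhds ‖y0⁻¹ * y0 - 1‖) := h2
    simpa [inv_mul_cancel₀ hy0'] using h
  have hs1 : ∀ᶠ y in nhds y0, ‖y0⁻¹ * y - 1‖ ≤ 1 / 2 :=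
    (hd1.eventually (Iic_mem_nhds (by norm_num)))
  have hs2 : ∀ᶠ y in nhds y0, ‖y⁻¹ * y0 - 1‖ ≤ 1 / 2 :=
    (hd2.eventually (Iic_mem_nhds (by norm_num)))
  have up : Filter.Tendsto (fun y : ℍ[ℝ] => (1 + C * ‖y0⁻¹ * y - 1‖) * eInf g p y0
      + C * ‖y0⁻¹ * y - 1‖) (nhds y0) (nhds (eInf g p y0)) := by
    have h := (((hd1.const_mul C).const_add 1).mul_const (eInf g p y0)).add (hd1.const_mul C)
    simpa using h
  have lo : Filter.Tendsto (fun y : ℍ[ℝ] => (eInf g p y0 - C * ‖y⁻¹ * y0 - 1‖)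
      / (1 + C * ‖y⁻¹ * y0 - 1‖)) (nhds y0) (nhds (eInf g p y0)) := by
    have h : Filter.Tendsto (fun y : ℍ[ℝ] => (eInf g p y0 - C * ‖y⁻¹ * y0 - 1‖)
        / (1 + C * ‖y⁻¹ * y0 - 1‖)) (nhds y0) (nhds ((eInf g p y0 - C * 0) / (1 + C * 0))) :=
      ((hd2.const_mul C).const_sub (eInf g p y0)).div ((hd2.const_mul C).const_add 1) (by simp)
    simpa using h
  refine tendsto_of_tendsto_of_tendsto_of_le_of_le' lo up ?_ ?_
  · filter_upwards [hne, hs2] with y hy hs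
    have h := hC p y (y⁻¹ * y0) hp hy hs
    rw [← mul_assoc, mul_inv_cancel₀ hy, one_mul] at h
    have hpos : 0 < 1 + C * ‖y⁻¹ * y0 - 1‖ := by positivity
    rw [div_le_iff₀ hpos]
    linarith
  · filter_upwards [hs1] with y hs
    have h := hC p y0 (y0⁻¹ * y) hp hy0' hs
    rw [← mul_assoc, mul_inv_cancel₀ hy0', one_mul] at h
    exact h

end Pool.Agent.Helper75.RF
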